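import Pool.Agent.LC5.Stmts

set_option autoImplicit false

/-!
# Squad LC5, row BC3: third part of closedness
-/

open Topology

namespace Pool.Agent.LC5.H41

open Pool.Agent.LCK Pool.Agent.LC5

theorem norm3 {α β γ : ℝ} (hα : 0 ≤ α) (hβ : 0 ≤ β) (hγ : 0 ≤ γ) {a b c : E3} {A B C : ℝ}
    (ha : ‖a‖ ≤ A) (hb : ‖b‖ ≤ B) (hc : ‖c‖ ≤ C) :
    ‖α • a + β • b + γ • c‖ ≤ α * A + β * B + γ * C := by
  refine (norm_add_le _ _).trans (add_le_add ((norm_add_le _ _).trans (add_le_add ?_ ?_)) ?_)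
  · rw [norm_smul, Real.norm_of_nonneg hα]
    exact mul_le_mul_of_nonneg_left ha hα
  · rw [norm_smul, Real.norm_of_nonneg hβ]
    exact mul_le_mul_of_nonneg_left hb hβ
  · rw [norm_smul, Real.norm_of_nonneg hγ]
    exact mul_le_mul_of_nonneg_left hc hγ

theorem seg_mem {a b : E3} {s t : ℝ} (hs : 0 ≤ s) (ht : 0 ≤ t) (hst : s + t = 1) :
    s • a + t • b ∈ segment ℝ a b := ⟨s, t, hs, ht, hst, rfl⟩

theorem bc3 (hSM6 : SM6Stmt) (hCRD : CRDStmt) (hBC1 : BC1Stmt) (hBC2 : BC2Stmt) : BC3Stmt := by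
  intro l hl hS0 hS4 v hv hC
  obtain ⟨y₁, y₂, y₃, α, β, γ, τ, r, hCD⟩ := hC
  obtain ⟨py1, py2, py3, -⟩ := hBC1 l hl v hv _ _ _ _ _ _ _ _ hCD
  have hd := hBC2 l hl hS4 v hv _ _ _ _ _ _ _ _ hCD
  obtain ⟨⟨-, -, -, hy⟩, ⟨hα, hβ, hγ, hαβγ⟩, ⟨hτ0, hτ1⟩, ⟨hr0, hr1⟩, hY, hW⟩ := hCD
  obtain ⟨⟨d01, d12, d23, d34, d45⟩, hsim⟩ := (hSM6.2 l v).1 hv
  obtain ⟨-, -, -, -, j1, j2, j3, -, -, -⟩ := (hSM6.1 v).1 hsim
  have hcr := (hCRD v hd).2.1
  have hinj : ∀ p q : ℝ × ℝ × ℝ, pt v p = pt v q → p = q := by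
    intro p q h
    rw [← hcr p, h, hcr]
  have p0 := hl 0
  have p1 := hl 1
  have p2 := hl 2
  have p3 := hl 3
  have p4 := hl 4
  -- distances
  have n43 : ‖v 3 - v 4‖ ≤ l 3 := by rw [← dist_eq_norm]; exact d34.le
  have n42 : ‖v 2 - v 4‖ ≤ l 2 + l 3 := by
    rw [← dist_eq_norm, ← d23, ← d34]
    exact dist_triangle _ _ _
  have n41 : ‖v 1 - v 4‖ ≤ l 1 + l 2 + l 3 := by
    rw [← dist_eq_norm]
    have h1 := dist_triangle (v 1) (v 2) (v 4)
    rw [dist_eq_norm (v 2) (v 4)] at h1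
    linarith
  have n12 : ‖v 2 - v 1‖ ≤ l 1 := by rw [← dist_eq_norm, dist_comm]; exact d12.le
  have n13 : ‖v 3 - v 1‖ ≤ l 1 + l 2 := by
    rw [← dist_eq_norm, dist_comm, ← d12, ← d23]
    exact dist_triangle _ _ _
  have n14 : ‖v 4 - v 1‖ ≤ l 1 + l 2 + l 3 := by
    rw [norm_sub_rev]
    exact n41
  have n54 : ‖v 5 - v 4‖ = l 4 := by rw [← dist_eq_norm, dist_comm]; exact d45
  have n01 : ‖v 0 - v 1‖ = l 0 := by rw [← dist_eq_norm]; exact d01
  -- the first point
  obtain ⟨Y, hYd⟩ : ∃ Y, Y = y₁ • v 1 + y₂ • v 2 + y₃ • v 3 := ⟨_, rfl⟩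
  rw [← hYd] at hY hW
  have hy1 : y₁ = 1 - y₂ - y₃ := by linarith
  have hYp : Y = pt v (y₃, y₂, 0) := by
    rw [hYd, hy1]
    unfold pt
    module
  have hτpos : 0 < τ := by
    rcases hτ0.eq_or_lt with h | h
    · exfalso
      rw [← h, sub_zero, one_smul, zero_smul, add_zero] at hY
      have h4 : v 4 = pt v (0, 0, 1) := by
        unfold pt
        module
      have h5 := hinj _ _ (hYp.symm.trans (hY.trans h4))
      have h6 := congrArg (fun p : ℝ × ℝ × ℝ => p.2.2) h5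
      norm_num at h6
    · exact h
  have hYv4 : Y - v 4 = τ • (v 5 - v 4) := by
    rw [hY]
    module
  have hYn : ‖Y - v 4‖ < l 1 + l 2 + l 3 := by
    have e : Y - v 4 = y₁ • (v 1 - v 4) + y₂ • (v 2 - v 4) + y₃ • (v 3 - v 4) := by
      rw [hYd, hy1]
      module
    rw [e]
    refine (norm3 py1.le py2.le py3.le n41 n42 n43).trans_lt ?_
    have h1 : y₁ * (l 1 + l 2 + l 3) + y₂ * (l 2 + l 3) + y₃ * l 3 =
        (l 1 + l 2 + l 3) - y₂ * l 1 - y₃ * (l 1 + l 2) := by
      rw [hy1]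
      ring
    rw [h1]
    have h2 : 0 < y₂ * l 1 := by positivity
    have h3 : 0 < y₃ * (l 1 + l 2) := by positivity
    linarith
  have hτlt : τ < 1 := by
    rw [hYv4, norm_smul, Real.norm_of_nonneg hτ0, n54] at hYn
    by_contra h
    have h1 : τ = 1 := le_antisymm hτ1 (not_lt.1 h)
    rw [h1, one_mul] at hYn
    linarith
  obtain ⟨σ, hσ⟩ : ∃ σ, σ = τ⁻¹ := ⟨_, rfl⟩
  have hσ1 : 1 < σ := by
    rw [hσ]
    exact (one_lt_inv₀ hτpos).2 hτlt
  have hσ0 : 0 < σ := by linarith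
  have hv5 : v 5 = pt v (σ * y₃, σ * y₂, 1 - σ) := by
    have h1 : v 5 - v 4 = σ • (Y - v 4) := by
      rw [hYv4, smul_smul, hσ, inv_mul_cancel₀ hτpos.ne', one_smul]
    have h2 : v 5 = v 4 + σ • (Y - v 4) := by
      rw [← h1]
      abel
    rw [h2, hYp]
    unfold pt
    module
  -- the second point
  obtain ⟨W, hWd⟩ : ∃ W, W = α • Y + β • v 3 + γ • v 4 := ⟨_, rfl⟩
  rw [← hWd] at hW
  have hWp : W = pt v (α * y₃ + β, α * y₂, γ) := by
    have h1 : α = 1 - β - γ := by linarith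
    rw [hWd, hYp, h1]
    unfold pt
    module
  have hWv1 : W - v 1 = r • (v 0 - v 1) := by
    rw [hW]
    module
  have hW0 : W ∈ segment ℝ (v 0) (v 1) := by
    rw [hW, add_comm ((1 - r) • v 1)]
    exact seg_mem hr0 (by linarith) (by ring)
  have hY4 : Y ∈ segment ℝ (v 4) (v 5) := by
    rw [hY]
    exact seg_mem (by linarith) hτ0 (by ring)
  have hαpos : 0 < α := by
    rcases hα.eq_or_lt with h | h
    · exfalso
      have h1 : W ∈ segment ℝ (v 3) (v 4) := by
        rw [hWd, ← h, zero_smul, zero_add]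
        exact seg_mem hβ hγ (by linarith)
      have h2 : W ∈ segment ℝ (v 0) (v 1) ∩ segment ℝ (v 3) (v 4) := ⟨hW0, h1⟩
      rw [show segment ℝ (v 0) (v 1) ∩ segment ℝ (v 3) (v 4) = ∅ from j2] at h2
      exact h2
    · exact h
  have hβpos : 0 < β := by
    rcases hβ.eq_or_lt with h | h
    · exfalso
      have h1 : W ∈ segment ℝ (v 4) (v 5) := by
        rw [hWd, ← h, zero_smul, add_zero]
        exact (convex_segment (v 4) (v 5)) hY4 (left_mem_segment _ _ _) hα hγ (by linarith)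
      have h2 : W ∈ segment ℝ (v 0) (v 1) ∩ segment ℝ (v 4) (v 5) := ⟨hW0, h1⟩
      rw [show segment ℝ (v 0) (v 1) ∩ segment ℝ (v 4) (v 5) = ∅ from j3] at h2
      exact h2
    · exact h
  have hγpos : 0 < γ := by
    rcases hγ.eq_or_lt with h | h
    · exfalso
      have hαy : α * y₁ < 1 := by
        have h1 : α ≤ 1 := by linarith
        have h2 : y₁ < 1 := by linarith
        nlinarith
      obtain ⟨κ, hκ⟩ : ∃ κ, κ = (1 - α * y₁)⁻¹ := ⟨_, rfl⟩
      have hκ0 : 0 < κ := by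
        rw [hκ]
        exact inv_pos.2 (by linarith)
      have hκ1 : κ * (1 - α * y₁) = 1 := by
        rw [hκ]
        exact inv_mul_cancel₀ (by linarith)
      obtain ⟨s, hs⟩ : ∃ s, s = κ * (α * y₃ + β) := ⟨_, rfl⟩
      obtain ⟨t, ht⟩ : ∃ t, t = κ * (α * y₂) := ⟨_, rfl⟩
      have hs0 : 0 ≤ s := by
        rw [hs]
        positivity
      have ht0 : 0 ≤ t := by
        rw [ht]
        positivity
      have hts : t + s = 1 := by
        rw [hs, ht, ← hκ1]
        have : β = 1 - α := by linarith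
        rw [this, hy1]
        ring
      have hq : v 1 + κ • (W - v 1) = t • v 2 + s • v 3 := by
        have e1 : t = 1 - s := by linarith
        have e2 : v 1 + κ • (W - v 1) = v 1 + (s • (v 3 - v 1) + t • (v 2 - v 1)) := by
          rw [hWp, ← h, hs, ht]
          unfold pt
          module
        rw [e2, e1]
        module
      have hq2 : v 1 + κ • (W - v 1) ∈ segment ℝ (v 2) (v 3) := by
        rw [hq]
        exact seg_mem ht0 hs0 hts
      have hκr : κ * r ≤ 1 := by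
        have e1 : (κ * r) • (v 0 - v 1) = t • (v 2 - v 1) + s • (v 3 - v 1) + (0 : ℝ) • (v 3 - v 1) := by
          rw [← smul_smul, ← hWv1]
          have e2 : κ • (W - v 1) = v 1 + κ • (W - v 1) - v 1 := by abel
          have e3 : t = 1 - s := by linarith
          rw [e2, hq, e3]
          module
        have e4 := norm3 ht0 hs0 (le_refl (0 : ℝ)) n12 n13 n13
        rw [← e1, norm_smul, Real.norm_of_nonneg (by positivity), n01] at e4
        by_contra hcon
        push Not at hcon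
        have e5 : l 0 < κ * r * l 0 := by nlinarith
        have e6 : t * l 1 + s * (l 1 + l 2) + 0 * (l 1 + l 2) = l 1 + s * l 2 := by
          have : t = 1 - s := by linarith
          rw [this]
          ring
        have e7 : s ≤ 1 := by linarith
        nlinarith
      have hq0 : v 1 + κ • (W - v 1) ∈ segment ℝ (v 0) (v 1) := by
        have e1 : v 1 + κ • (W - v 1) = (κ * r) • v 0 + (1 - κ * r) • v 1 := by
          rw [hWv1]
          module
        rw [e1]
        exact seg_mem (by positivity) (by linarith) (by ring)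
      have h2 : v 1 + κ • (W - v 1) ∈ segment ℝ (v 0) (v 1) ∩ segment ℝ (v 2) (v 3) := ⟨hq0, hq2⟩
      rw [show segment ℝ (v 0) (v 1) ∩ segment ℝ (v 2) (v 3) = ∅ from j1] at h2
      exact h2
    · exact h
  have hrpos : 0 < r := by
    rcases hr0.eq_or_lt with h | h
    · exfalso
      rw [← h, zero_smul, sub_eq_zero] at hWv1
      have h1 : v 1 = pt v (0, 0, 0) := by
        unfold pt
        module
      have h5 := hinj _ _ (hWp.symm.trans (hWv1.trans h1))
      have h6 := congrArg (fun p : ℝ × ℝ × ℝ => p.2.2) h5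
      simp only at h6
      linarith
    · exact h
  have hrlt : r < 1 := by
    have e : W - v 1 = α • (Y - v 1) + β • (v 3 - v 1) + γ • (v 4 - v 1) := by
      have h1 : α = 1 - β - γ := by linarith
      rw [hWd, h1]
      module
    have nY : ‖Y - v 1‖ ≤ l 1 + l 2 := by
      have e2 : Y - v 1 = y₁ • (0 : E3) + y₂ • (v 2 - v 1) + y₃ • (v 3 - v 1) := by
        rw [hYd, hy1]
        module
      rw [e2]
      refine (norm3 (A := 0) py1.le py2.le py3.le (by rw [norm_zero]) n12 n13).trans ?_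
      have h2 : y₂ * l 1 ≤ y₂ * (l 1 + l 2) := mul_le_mul_of_nonneg_left (by linarith) py2.le
      have h3 : (y₂ + y₃) * (l 1 + l 2) ≤ 1 * (l 1 + l 2) :=
        mul_le_mul_of_nonneg_right (by linarith) (by linarith)
      linarith
    have h3 := norm3 hα hβ hγ nY n13 n14
    rw [← e, hWv1, norm_smul, Real.norm_of_nonneg hr0, n01] at h3
    by_contra h
    have h1 : r = 1 := le_antisymm hr1 (not_lt.1 h)
    rw [h1, one_mul] at h3
    have h4 : α * (l 1 + l 2) + β * (l 1 + l 2) + γ * (l 1 + l 2 + l 3) =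
        (l 1 + l 2 + l 3) - (α + β) * l 3 := by
      have h1 : α = 1 - β - γ := by linarith
      rw [h1]
      ring
    have h5 : 0 < (α + β) * l 3 := by positivity
    linarith
  have hv0 : v 0 = pt v ((α * y₃ + β) / r, α * y₂ / r, γ / r) := by
    have h1 : v 0 - v 1 = r⁻¹ • (W - v 1) := by
      rw [hWv1, smul_smul, inv_mul_cancel₀ hrpos.ne', one_smul]
    have h2 : v 0 = v 1 + r⁻¹ • (W - v 1) := by
      rw [← h1]
      abel
    rw [h2, hWp]
    unfold pt
    simp only [div_eq_inv_mul]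
    module
  have hsum : σ * y₂ * ((α * y₃ + β) / r + γ / r) +
      α * y₂ / r * (1 - (1 - σ) - σ * y₃) = σ * y₂ / r := by
    have h1 : α = 1 - β - γ := by linarith
    rw [h1]
    field_simp
    ring
  refine ⟨hd, σ * y₃, σ * y₂, 1 - σ, (α * y₃ + β) / r, α * y₂ / r, γ / r, hv5, hv0,
    by positivity, by positivity, ?_, by positivity, by positivity, ?_, by linarith, ?_⟩
  · have h1 : σ * y₃ + σ * y₂ + (1 - σ) = 1 - σ * y₁ := by
      rw [hy1]
      ring
    rw [h1]
    have : 0 < σ * y₁ := by positivity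
    linarith
  · have h1 : (α * y₃ + β) / r * (σ * y₂) - α * y₂ / r * (σ * y₃) = β * σ * y₂ / r := by
      field_simp
      ring
    have h2 : 0 < β * σ * y₂ / r := by positivity
    linarith
  · rw [hsum, lt_div_iff₀ hrpos]
    have : 0 < σ * y₂ := by positivity
    nlinarith

end Pool.Agent.LC5.H41
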