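import Pool.Agent.LC5.Stmts
import Pool.Agent.Helper41_LCK.DET

set_option autoImplicit false

/-!
# Squad LC5, row DE5: a polynomial certificate for generic chains with five links
-/

open Topology

namespace Pool.Agent.LC5.H41

open Pool.Agent.LCK Pool.Agent.LC5
open Pool.Agent.LCK.H41 (pf_const pf_X pf_add pf_mul pf_sub pf_pow pf_sum pf_prod pf_ne_mul
  pf_ne_prod uc qc pf_uc pf_qc pf_det3)

open Classical in
/-- numerator of the vector of link `k` -/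
noncomputable def nc (l : Fin 5 → ℝ) (k : Fin 5) (c : Fin 3) (a : Fin 6 × Fin 3 → ℝ) : ℝ :=
  (l k * ∏ m ∈ Finset.univ.erase k, qc m a) * uc k c a

/-- determinant of three combinations of the link vectors -/
noncomputable def gd (l x y z : Fin 5 → ℝ) (a : Fin 6 × Fin 3 → ℝ) : ℝ :=
  LCK.H41.det3 (fun c => ∑ k, x k * nc l k c a) (fun c => ∑ k, y k * nc l k c a)
    (fun c => ∑ k, z k * nc l k c a)

theorem pf_nc (l : Fin 5 → ℝ) (k : Fin 5) (c : Fin 3) : PF (nc l k c) := by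
  unfold nc
  exact pf_mul (pf_mul (pf_const _) (pf_prod _ fun m _ => pf_qc m)) (pf_uc k c)

theorem pf_gd (l x y z : Fin 5 → ℝ) : PF (gd l x y z) := by
  have h : ∀ (x : Fin 5 → ℝ) (c : Fin 3), PF (fun a => ∑ k, x k * nc l k c a) := fun x c =>
    pf_sum _ fun k _ => pf_mul (pf_const _) (pf_nc l k c)
  exact pf_det3 (x := fun c a => ∑ k, x k * nc l k c a) (y := fun c a => ∑ k, y k * nc l k c a)
    (z := fun c a => ∑ k, z k * nc l k c a) (h x) (h y) (h z)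

/-- the three test directions -/
def tv (d i : Fin 3) : ℝ :=
  if d = 0 then (if i = 1 then 0 else 1) else if d = 1 then (if i = 0 then 0 else 1)
  else (if i = 2 then 1 else 0)

theorem fin3 (d : Fin 3) : d = 0 ∨ d = 1 ∨ d = 2 := by
  fin_cases d
  · exact Or.inl rfl
  · exact Or.inr (Or.inl rfl)
  · exact Or.inr (Or.inr rfl)

/-- the test point with the directions `dir` -/
def td (dir : Fin 5 → Fin 3) (x : Fin 6 × Fin 3) : ℝ :=
  Fin.cases (motive := fun _ => ℝ) 0 (fun k : Fin 5 => tv (dir k) x.2) x.1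

/-- coordinates of the unit directions -/
def ec (d c : Fin 3) : ℝ := if d = c then (if d = 2 then -1 else 1) else 0

theorem qc_td_pos (dir : Fin 5 → Fin 3) (k : Fin 5) : 0 < qc k (td dir) := by
  have h : qc k (td dir) = Q (tv (dir k)) := rfl
  rw [h]
  rcases fin3 (dir k) with e | e | e <;> rw [e] <;> simp [Q, tv]

theorem uc_td (dir : Fin 5 → Fin 3) (k : Fin 5) (c : Fin 3) :
    uc k c (td dir) = qc k (td dir) * ec (dir k) c := by
  have h : qc k (td dir) = Q (tv (dir k)) := rfl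
  have h2 : uc k c (td dir) = U (tv (dir k)) c := rfl
  rw [h, h2]
  rcases fin3 (dir k) with e | e | e <;> rcases fin3 c with e' | e' | e' <;> rw [e, e'] <;>
    simp [Q, U, tv, ec] <;> norm_num

theorem nc_td (l : Fin 5 → ℝ) (dir : Fin 5 → Fin 3) (k : Fin 5) (c : Fin 3) :
    nc l k c (td dir) = (∏ m, qc m (td dir)) * (l k * ec (dir k) c) := by
  classical
  unfold nc
  rw [← Finset.mul_prod_erase Finset.univ (fun m => qc m (td dir)) (Finset.mem_univ k), uc_td]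
  ring

theorem det3_scale (P : ℝ) (X Y Z : Fin 3 → ℝ) :
    LCK.H41.det3 (fun c => P * X c) (fun c => P * Y c) (fun c => P * Z c) =
      P ^ 3 * LCK.H41.det3 X Y Z := by
  unfold LCK.H41.det3
  ring

theorem gd_ne (l x y z : Fin 5 → ℝ) (dir : Fin 5 → Fin 3)
    (h : LCK.H41.det3 (fun c => ∑ k, x k * (l k * ec (dir k) c))
      (fun c => ∑ k, y k * (l k * ec (dir k) c)) (fun c => ∑ k, z k * (l k * ec (dir k) c)) ≠ 0) :
    ∃ a, gd l x y z a ≠ 0 := by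
  refine ⟨td dir, ?_⟩
  have e : ∀ (x : Fin 5 → ℝ) (c : Fin 3), ∑ k, x k * nc l k c (td dir) =
      (∏ m, qc m (td dir)) * ∑ k, x k * (l k * ec (dir k) c) := by
    intro x c
    rw [Finset.mul_sum]
    refine Finset.sum_congr rfl fun k _ => ?_
    rw [nc_td]
    ring
  unfold gd
  simp only [e]
  rw [det3_scale]
  exact mul_ne_zero (pow_ne_zero _ (Finset.prod_pos fun m _ => qc_td_pos dir m).ne') h

/-- the determinant of the chain does not vanish if the certificate does not -/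
theorem gdet {l : Fin 5 → ℝ} {a : Fin 6 × Fin 3 → ℝ} (hq : ∀ k : Fin 5, qc k a ≠ 0)
    (hstep : ∀ (k : Fin 5) (c : Fin 3),
      (V l a k.succ - V l a k.castSucc) c = l k / qc k a * uc k c a)
    {x y z : Fin 5 → ℝ} {X Y Z : E3}
    (hX : ∀ c, X c = ∑ k : Fin 5, x k * (V l a k.succ - V l a k.castSucc) c)
    (hY : ∀ c, Y c = ∑ k : Fin 5, y k * (V l a k.succ - V l a k.castSucc) c)
    (hZ : ∀ c, Z c = ∑ k : Fin 5, z k * (V l a k.succ - V l a k.castSucc) c)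
    (hG : gd l x y z a ≠ 0) : LC5.det3 X Y Z ≠ 0 := by
  classical
  intro h0
  apply hG
  have e : ∀ (x : Fin 5 → ℝ) (X : E3)
      (_ : ∀ c, X c = ∑ k : Fin 5, x k * (V l a k.succ - V l a k.castSucc) c) (c : Fin 3),
      ∑ k, x k * nc l k c a = (∏ m, qc m a) * X c := by
    intro x X hX c
    rw [hX c, Finset.mul_sum]
    refine Finset.sum_congr rfl fun k _ => ?_
    rw [hstep k c]
    unfold nc
    rw [← Finset.mul_prod_erase Finset.univ (fun m => qc m a) (Finset.mem_univ k)]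
    have := hq k
    field_simp
  unfold gd
  simp only [e x X hX, e y Y hY, e z Z hZ]
  rw [det3_scale]
  have h1 : LCK.H41.det3 (fun c => X c) (fun c => Y c) (fun c => Z c) = 0 := h0
  rw [h1, mul_zero]

theorem de5 (hPAR : PARStmt) : DE5Stmt := by
  intro l hl
  have h0 := hl 0
  have h1 := hl 1
  have h2 := hl 2
  have h3 := hl 3
  have h4 := hl 4
  obtain ⟨F, hF⟩ : ∃ F : Fin 7 → (Fin 6 × Fin 3 → ℝ) → ℝ, F =
    ![gd l ![0, 1, 1, 0, 0] ![0, 1, 0, 0, 0] ![0, 1, 1, 1, 0],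
      gd l ![0, 1, 1, 0, 0] ![-1, 0, 0, 0, 0] ![0, 1, 1, 1, 0],
      gd l ![0, 1, 1, 0, 0] ![0, 1, 0, 0, 0] ![-1, 0, 0, 0, 0],
      gd l ![0, 0, 0, 0, 1] ![0, 1, 0, 0, 0] ![0, 1, 1, 1, 0],
      gd l ![0, 1, 1, 0, 0] ![0, 1, 0, 0, 0] ![0, 0, 0, 0, 1],
      gd l ![-1, 0, 0, 0, 0] ![0, 0, 0, 0, 1] ![0, 1, 1, 1, 0],
      gd l ![0, 0, 1, 0, 0] ![0, 0, 1, 1, 0] ![0, 0, 0, 0, 1]] := ⟨_, rfl⟩
  have hpf : ∀ i, PF (F i) := by
    intro i
    rw [hF]
    fin_cases i <;> exact pf_gd _ _ _ _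
  have hne : ∀ i, ∃ a, F i a ≠ 0 := by
    intro i
    rw [hF]
    fin_cases i
    · refine gd_ne _ _ _ _ ![0, 0, 1, 2, 0] ?_
      simp [LCK.H41.det3, Fin.sum_univ_five, ec]
      exact ⟨h2.ne', h1.ne', h3.ne'⟩
    · refine gd_ne _ _ _ _ ![1, 0, 0, 2, 0] ?_
      simp [LCK.H41.det3, Fin.sum_univ_five, ec]
      exact ⟨(add_pos h1 h2).ne', h0.ne', h3.ne'⟩
    · refine gd_ne _ _ _ _ ![2, 0, 1, 0, 0] ?_
      simp [LCK.H41.det3, Fin.sum_univ_five, ec]
      exact ⟨h2.ne', h1.ne', h0.ne'⟩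
    · refine gd_ne _ _ _ _ ![0, 1, 2, 2, 0] ?_
      simp [LCK.H41.det3, Fin.sum_univ_five, ec]
      exact ⟨h4.ne', h1.ne', by linarith⟩
    · refine gd_ne _ _ _ _ ![0, 0, 1, 0, 2] ?_
      simp [LCK.H41.det3, Fin.sum_univ_five, ec]
      exact ⟨h2.ne', h1.ne', h4.ne'⟩
    · refine gd_ne _ _ _ _ ![0, 2, 2, 2, 1] ?_
      simp [LCK.H41.det3, Fin.sum_univ_five, ec]
      exact ⟨h0.ne', h4.ne', by linarith⟩
    · refine gd_ne _ _ _ _ ![0, 0, 0, 1, 2] ?_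
      simp [LCK.H41.det3, Fin.sum_univ_five, ec]
      exact ⟨h2.ne', h3.ne', h4.ne'⟩
  have hqne : ∃ a : Fin 6 × Fin 3 → ℝ, ∏ k : Fin 5, qc k a ≠ 0 :=
    ⟨td (fun _ => 0), (Finset.prod_pos fun m _ => qc_td_pos _ m).ne'⟩
  refine ⟨fun a => (∏ k : Fin 5, qc k a) * ∏ i, F i a,
    pf_mul (pf_prod _ fun k _ => pf_qc k) (pf_prod _ fun i _ => hpf i),
    pf_ne_mul (pf_prod _ fun k _ => pf_qc k) (pf_prod _ fun i _ => hpf i) hqne
      (pf_ne_prod _ (fun i _ => hpf i) (fun i _ => hne i)), fun a ha => ?_⟩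
  obtain ⟨hq, hf⟩ := mul_ne_zero_iff.1 ha
  have hQ : ∀ k : Fin 5, qc k a ≠ 0 := fun k => Finset.prod_ne_zero_iff.1 hq k (Finset.mem_univ k)
  have hFi : ∀ i, F i a ≠ 0 := fun i => Finset.prod_ne_zero_iff.1 hf i (Finset.mem_univ _)
  refine ⟨hQ, ?_⟩
  obtain ⟨hst, -, -⟩ := (hPAR 5 l hl).2 a hQ
  have hstep : ∀ (k : Fin 5) (c : Fin 3),
      (V l a k.succ - V l a k.castSucc) c = l k / qc k a * uc k c a := by
    intro k c
    rw [hst k, PiLp.smul_apply, smul_eq_mul]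
    rfl
  have hs : ∀ (x : Fin 5 → ℝ) (c : Fin 3),
      ∑ k : Fin 5, x k * (V l a k.succ - V l a k.castSucc) c =
      x 0 * (V l a 1 - V l a 0) c + x 1 * (V l a 2 - V l a 1) c + x 2 * (V l a 3 - V l a 2) c +
        x 3 * (V l a 4 - V l a 3) c + x 4 * (V l a 5 - V l a 4) c := by
    intro x c
    rw [Fin.sum_univ_five]
    rfl
  have hA : ∀ c, (V l a 3 - V l a 1) c = ∑ k : Fin 5, (![0, 1, 1, 0, 0] : Fin 5 → ℝ) k *
      (V l a k.succ - V l a k.castSucc) c := by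
    intro c
    rw [hs]
    simp [PiLp.sub_apply]
  have hB : ∀ c, (V l a 2 - V l a 1) c = ∑ k : Fin 5, (![0, 1, 0, 0, 0] : Fin 5 → ℝ) k *
      (V l a k.succ - V l a k.castSucc) c := by
    intro c
    rw [hs]
    simp [PiLp.sub_apply]
  have hP : ∀ c, (V l a 4 - V l a 1) c = ∑ k : Fin 5, (![0, 1, 1, 1, 0] : Fin 5 → ℝ) k *
      (V l a k.succ - V l a k.castSucc) c := by
    intro c
    rw [hs]
    simp [PiLp.sub_apply]
  have hX : ∀ c, (V l a 0 - V l a 1) c = ∑ k : Fin 5, (![-1, 0, 0, 0, 0] : Fin 5 → ℝ) k *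
      (V l a k.succ - V l a k.castSucc) c := by
    intro c
    rw [hs]
    simp [PiLp.sub_apply]
  have hD : ∀ c, (V l a 5 - V l a 4) c = ∑ k : Fin 5, (![0, 0, 0, 0, 1] : Fin 5 → ℝ) k *
      (V l a k.succ - V l a k.castSucc) c := by
    intro c
    rw [hs]
    simp [PiLp.sub_apply]
  have hL2 : ∀ c, (V l a 3 - V l a 2) c = ∑ k : Fin 5, (![0, 0, 1, 0, 0] : Fin 5 → ℝ) k *
      (V l a k.succ - V l a k.castSucc) c := by
    intro c
    rw [hs]
    simp [PiLp.sub_apply]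
  have hL23 : ∀ c, (V l a 4 - V l a 2) c = ∑ k : Fin 5, (![0, 0, 1, 1, 0] : Fin 5 → ℝ) k *
      (V l a k.succ - V l a k.castSucc) c := by
    intro c
    rw [hs]
    simp [PiLp.sub_apply]
  subst hF
  exact ⟨gdet hQ hstep hA hB hP (hFi 0), gdet hQ hstep hA hX hP (hFi 1),
    gdet hQ hstep hA hB hX (hFi 2), gdet hQ hstep hD hB hP (hFi 3),
    gdet hQ hstep hA hB hD (hFi 4), gdet hQ hstep hX hD hP (hFi 5),
    gdet hQ hstep hL2 hL23 hD (hFi 6)⟩

end Pool.Agent.LC5.H41
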