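import Pool.Agent.LC5.Stmts

set_option autoImplicit false

/-!
# Squad LC5, row NEB: existence of trefoils
-/

open Topology

namespace Pool.Agent.LC5.H41

open Pool.Agent.LCK Pool.Agent.LC5

theorem nsq (a b c : ℝ) : ‖(!₂[a, b, c] : E3)‖ ^ 2 = a ^ 2 + b ^ 2 + c ^ 2 := by
  rw [EuclideanSpace.real_norm_sq_eq, Fin.sum_univ_three]
  rfl

theorem norm_pos_of {a b c : ℝ} (h : 0 < a ^ 2 + b ^ 2 + c ^ 2) : 0 < ‖(!₂[a, b, c] : E3)‖ := by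
  have h1 := nsq a b c
  by_contra h2
  have h3 : ‖(!₂[a, b, c] : E3)‖ = 0 := le_antisymm (not_lt.1 h2) (norm_nonneg _)
  rw [h3] at h1
  norm_num at h1
  linarith

theorem norm_lt_of {a b c S : ℝ} (hS : 0 ≤ S) (h : a ^ 2 + b ^ 2 + c ^ 2 < S ^ 2) :
    ‖(!₂[a, b, c] : E3)‖ < S := by
  refine lt_of_pow_lt_pow_left₀ 2 hS ?_
  rw [nsq]
  exact h

theorem norm_eq_of {a b c S : ℝ} (hS : 0 ≤ S) (h : a ^ 2 + b ^ 2 + c ^ 2 = S ^ 2) :
    ‖(!₂[a, b, c] : E3)‖ = S := by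
  have h1 := nsq a b c
  rw [h] at h1
  exact (pow_left_inj₀ (norm_nonneg _) hS two_ne_zero).1 h1

theorem dist_smul_self {p u : E3} {L : ℝ} (hL : 0 < L) (hu : 0 < ‖u‖) :
    dist (p + (L / ‖u‖) • u) p = L ∧ dist p (p + (L / ‖u‖) • u) = L := by
  have h : dist (p + (L / ‖u‖) • u) p = L := by
    rw [dist_eq_norm, add_sub_cancel_left, norm_smul, Real.norm_of_nonneg (by positivity),
      div_mul_cancel₀ _ hu.ne']
  exact ⟨h, by rw [dist_comm]; exact h⟩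

/-- the trefoil -/
noncomputable def tf (l : Fin 5 → ℝ) (ρ σ : ℝ) : Fin 6 → E3 :=
  ![!₂[0, l 1, 0] + ρ • !₂[7 * l 2 / 9, -(8 * l 1 / 9), l 3 / 3], !₂[0, l 1, 0], !₂[0, 0, 0],
    !₂[l 2, 0, 0], !₂[l 2, 0, l 3],
    !₂[l 2, 0, l 3] + σ • !₂[-(2 * l 2 / 3), l 1 / 3, -l 3]]

theorem tf_beta {l : Fin 5 → ℝ} (hl : ∀ k, 0 < l k) {ρ σ : ℝ} (hρ : 1 < ρ) (hσ : 1 < σ) :
    Beta (tf l ρ σ) := by
  have h1 := hl 1
  have h2 := hl 2
  have h3 := hl 3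
  refine ⟨?_, σ / 3, σ / 3, 1 - σ, 4 * ρ / 9, ρ / 9, ρ / 3, ?_, ?_, by linarith, by linarith,
    by linarith, by linarith, by linarith, ?_, by linarith, ?_⟩
  · have e : dt (tf l ρ σ) = -(l 1 * l 2 * l 3) := by
      simp [dt, det3, tf, PiLp.sub_apply]
      ring
    rw [e]
    have : 0 < l 1 * l 2 * l 3 := by positivity
    linarith
  · ext i
    fin_cases i <;> simp [pt, tf] <;> ring
  · ext i
    fin_cases i <;> simp [pt, tf] <;> ring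
  · nlinarith
  · nlinarith

theorem neb (hSM6 : SM6Stmt) (hBSI : BSIStmt) : NEBStmt := by
  intro l hl h0 h4
  have p0 := hl 0
  have p1 := hl 1
  have p2 := hl 2
  have p3 := hl 3
  have p4 := hl 4
  obtain ⟨u, hu⟩ : ∃ u : E3, u = !₂[7 * l 2 / 9, -(8 * l 1 / 9), l 3 / 3] := ⟨_, rfl⟩
  obtain ⟨w, hw⟩ : ∃ w : E3, w = !₂[-(2 * l 2 / 3), l 1 / 3, -l 3] := ⟨_, rfl⟩
  have hu0 : 0 < ‖u‖ := by
    rw [hu]
    exact norm_pos_of (by positivity)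
  have hw0 : 0 < ‖w‖ := by
    rw [hw]
    exact norm_pos_of (by positivity)
  have hu1 : ‖u‖ < l 0 := by
    refine lt_of_lt_of_le ?_ h0
    rw [hu]
    apply norm_lt_of (by positivity)
    nlinarith [mul_pos p1 p2, mul_pos p1 p3, mul_pos p2 p3, mul_pos p1 p1, mul_pos p2 p2,
      mul_pos p3 p3]
  have hw1 : ‖w‖ < l 4 := by
    refine lt_of_lt_of_le ?_ h4
    rw [hw]
    apply norm_lt_of (by positivity)
    nlinarith [mul_pos p1 p2, mul_pos p1 p3, mul_pos p2 p3, mul_pos p1 p1, mul_pos p2 p2,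
      mul_pos p3 p3]
  have hB := tf_beta hl (ρ := l 0 / ‖u‖) (σ := l 4 / ‖w‖) ((one_lt_div hu0).2 hu1)
    ((one_lt_div hw0).2 hw1)
  refine ⟨tf l (l 0 / ‖u‖) (l 4 / ‖w‖), ?_, hB⟩
  rw [hSM6.2]
  refine ⟨⟨?_, ?_, ?_, ?_, ?_⟩, ?_⟩
  · show dist (!₂[0, l 1, 0] + (l 0 / ‖u‖) • !₂[7 * l 2 / 9, -(8 * l 1 / 9), l 3 / 3] : E3)
      !₂[0, l 1, 0] = l 0
    rw [← hu]
    exact (dist_smul_self p0 hu0).1
  · show dist (!₂[0, l 1, 0] : E3) !₂[0, 0, 0] = l 1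
    rw [dist_eq_norm]
    have e : (!₂[0, l 1, 0] : E3) - !₂[0, 0, 0] = !₂[0, l 1, 0] := by
      ext i
      fin_cases i <;> simp
    rw [e]
    exact norm_eq_of p1.le (by ring)
  · show dist (!₂[0, 0, 0] : E3) !₂[l 2, 0, 0] = l 2
    rw [dist_comm, dist_eq_norm]
    have e : (!₂[l 2, 0, 0] : E3) - !₂[0, 0, 0] = !₂[l 2, 0, 0] := by
      ext i
      fin_cases i <;> simp
    rw [e]
    exact norm_eq_of p2.le (by ring)
  · show dist (!₂[l 2, 0, 0] : E3) !₂[l 2, 0, l 3] = l 3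
    rw [dist_comm, dist_eq_norm]
    have e : (!₂[l 2, 0, l 3] : E3) - !₂[l 2, 0, 0] = !₂[0, 0, l 3] := by
      ext i
      fin_cases i <;> simp
    rw [e]
    exact norm_eq_of p3.le (by ring)
  · show dist (!₂[l 2, 0, l 3] : E3)
      (!₂[l 2, 0, l 3] + (l 4 / ‖w‖) • !₂[-(2 * l 2 / 3), l 1 / 3, -l 3]) = l 4
    rw [← hw]
    exact (dist_smul_self p4 hw0).2
  · apply hBSI
    obtain ⟨hd, a, b, c, x, y, z, q1, q2, q3, q4, q5, q6, q7, q8, -, -⟩ := hB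
    exact ⟨hd, a, b, c, x, y, z, q1, q2, q3, q4, q5, q6, q7, q8⟩

end Pool.Agent.LC5.H41
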